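import Pool.Agent.H676.GI.Dicho

set_option autoImplicit false

/-! # Isomorphism of graphs of bounded Vapnik-Chervonenkis dimension: the gap version -/

namespace Pool.Agent.Results.MP_f1a348_lc.BoundedVCGap

open Pool.Agent.NPC Pool.Agent.NPC.R542 Pool.Agent.NPC.R542.GI Pool.Agent.H692R2
  Pool.Agent.H676.GI

/-- For graphs of bounded Vapnik-Chervonenkis dimension the isomorphic pairs are told apart in
polynomial time from the pairs at distance `n² / K`, for every constant `K`; but already for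
dimension two, telling them apart from the pairs at distance `n^(2 - ε)` is as hard as graph
isomorphism, for every `ε > 0`. -/
theorem result :
    (∀ d K : ℕ, ∃ D : List Bool → List Bool, PolyTime D ∧ ∀ A B : FinGraph,
      (VCLe A.graph d → Iso2 A B → D (bits (A, B)) = [true]) ∧
      (D (bits (A, B)) = [true] →
        ∃ f : Fin A.n ≃ Fin B.n, K * mism A.graph B.graph f ≤ A.n ^ 2)) ∧
    (∀ ε : ℝ, 0 < ε → ∃ F : List Bool → List Bool, PolyTime F ∧ ∀ A B : FinGraph,
      ∃ A' B' : FinGraph, F (bits (A, B)) = bits (A', B') ∧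
        A'.n = B'.n ∧ VCLe A'.graph 2 ∧ VCLe B'.graph 2 ∧ (Iso2 A B → Iso2 A' B') ∧
        (¬ Iso2 A B → 1 ≤ A'.n ∧ ∀ f : Fin A'.n ≃ Fin B'.n,
          (A'.n : ℝ) ^ (2 - ε) ≤ mism A'.graph B'.graph f)) ∧
    ∀ ε : ℝ, 0 < ε → (InPP (fun p : FinGraph × FinGraph => Iso2 p.1 p.2) ↔
      ∃ D : List Bool → List Bool, PolyTime D ∧ ∀ A B : FinGraph, A.n = B.n →
        VCLe A.graph 2 → VCLe B.graph 2 → (Iso2 A B → D (bits (A, B)) = [true]) ∧
          (1 ≤ A.n → (∀ f : Fin A.n ≃ Fin B.n,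
            (A.n : ℝ) ^ (2 - ε) ≤ mism A.graph B.graph f) → D (bits (A, B)) ≠ [true])) := by
  refine ⟨easy, fun ε hε => ?_, hard_iff⟩
  obtain ⟨F, hF, h, -⟩ := gap_hard ε hε
  exact ⟨F, hF, h⟩

end Pool.Agent.Results.MP_f1a348_lc.BoundedVCGap
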