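import Pool.Agent.H676.FR.Main3

set_option autoImplicit false

/-!
# Approximate graph isomorphism: the exact power of Weisfeiler-Leman and of symmetric circuits

A random bijection between two graphs with `n` vertices and equally many edges is wrong on about
`n² / 2` ordered pairs of vertices on average, or fewer. We determine asymptotically exactly, for all
`1 ≤ k ≤ n^(1 - ε)`, how far from isomorphic two graphs can be which the `k`-dimensional
Weisfeiler-Leman algorithm does not distinguish:

  `(1 + o(1)) (n² / 2) min (1, log₂ (n / k) / k)` wrong pairs.

So there is a sharp threshold at `k = log₂ n`: for smaller `k` the algorithm certifies nothing better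
than the trivial bound `n² / 2`, and for larger `k` the certified distance is exactly the fraction
`log₂ (n / k) / k` of it.

The same pairs of graphs are not distinguished by any symmetric circuit with fewer than
`C(n, k + 2)` gates of unbounded fan-in which compute arbitrary functions of the multiset of their
inputs, while some symmetric Boolean circuits with `20 n^(k + 4)` gates certify this distance. So the
same law holds for symmetric circuits, with `k` the logarithm of the number of gates to the base `n`,
and for them `n ^ ((1 + o(1)) log₂ n)` gates are the threshold for doing better than a random
bijection. The pairs are not distinguished either by the level `k / 3` of the sum-of-squares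
(Lasserre) hierarchy, while the level `k + 1` certifies the distance.

Upper bound: `k` random vertices `u₁, u₂, …` are fixed one after the other. The entropy of the
partition of the vertices by their adjacencies to them grows by at most `log₂ n` in total, and the
errors on a class are controlled by the entropy it loses in the next step. This gives `log₂ n / k`.
For the sharper `log₂ (n / k)` one notices that classes with more than `n / k^(1 - ε)` vertices
contribute almost nothing: they contain many of the fixed vertices, and so, in the stable (equitable)
colouring, they are joined to every other colour class with more than one element with a density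
near `0` or `1`, where the entropy is much larger than the errors. The entropy lost by the small
classes is at most `log₂ (n / k^(1 - ε))`.

Lower bound: `F = C k` fibres of size `2 ^ d ≈ n / F`, joined along a random graph of density
`d / k` by single linear equations over the field with two elements with random coefficients and
right-hand sides. For circuits: gates have supports with at most `k + 1` elements, and positions with
at most `k + 1` pebbles suffice to compare the inputs of corresponding gates (instead of twice the
size of the supports), because the values of the children depend only on their own supports; the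
vertices of the support of the gate outside are taken care of by inclusion and exclusion.
-/

namespace Pool.Agent.Results.MP_f1a348_lc.ExactDistance

open Pool.Agent.H676.SC Pool.Agent.H676.So Pool.Agent.W893.PR

/-- **The exact distance from isomorphism that Weisfeiler-Leman and symmetric circuits miss, for all
dimensions up to `n ^ (1 - ε)`.** `errors G H f` is the number of ordered pairs of vertices at which
the bijection `f` is not an isomorphism from `G` to `H`. -/
theorem result (ε : ℝ) (hε : 0 < ε) : ∃ n₀ : ℕ, ∀ n k : ℕ, n₀ ≤ n → 1 ≤ k →
    (k : ℝ) ≤ (n : ℝ) ^ (1 - ε) →
    (∀ G H : SimpleGraph (Fin n), WLEquiv k G H ∨ SosEquiv (k + 1) G H →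
      ∃ f : Equiv.Perm (Fin n), 2 * (errors G H f : ℝ) ≤
        (1 + ε) * (n : ℝ) ^ 2 * min 1 (Real.logb 2 ((n : ℝ) / k) / k)) ∧
    (∀ H : SimpleGraph (Fin n), ∃ 𝒞 : Circuit (Fin n) Bool Unit, 𝒞.Symmetric ∧
      𝒞.size ≤ 20 * n ^ (k + 4) ∧
      (∀ G : SimpleGraph (Fin n), Nonempty (G ≃g H) → 𝒞.output G = true) ∧
      ∀ G : SimpleGraph (Fin n), 𝒞.output G = true → ∃ f : Equiv.Perm (Fin n),
        2 * (errors H G f : ℝ) ≤
          (1 + ε) * (n : ℝ) ^ 2 * min 1 (Real.logb 2 ((n : ℝ) / k) / k)) ∧
    ∃ G H : SimpleGraph (Fin n), WLEquiv k G H ∧
      (∀ (D L : Type) (𝒞 : Circuit (Fin n) D L), 𝒞.Symmetric → 𝒞.size < n.choose (k + 2) →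
        𝒞.output G = 𝒞.output H) ∧
      (∀ l : ℕ, 1 ≤ l → 3 * l ≤ k → SosEquiv l G H) ∧
      ∀ f : Equiv.Perm (Fin n), (1 - ε) * (n : ℝ) ^ 2 *
        min 1 (Real.logb 2 ((n : ℝ) / k) / k) ≤ 2 * errors G H f :=
  Pool.Agent.H676.FR.main3 ε hε

end Pool.Agent.Results.MP_f1a348_lc.ExactDistance
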