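import Pool.Agent.H676.So.Main

set_option autoImplicit false

/-! # The distance from isomorphism that Weisfeiler-Leman and sums of squares do not detect -/

namespace Pool.Agent.Results.MP_f1a348_lc.HierarchyDistance

open Pool.Agent.W893.PR Pool.Agent.H676.So

/-- Two graphs on `n` vertices which are not distinguished by the `k`-dimensional
Weisfeiler-Leman algorithm, or not by the `k`-th level of the sum-of-squares hierarchy, have a
bijection with `O (n² log (2n/k) / (k + log n))` errors. For all `k` up to a constant times `n` this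
is sharp up to a constant factor, with one pair of graphs for both hierarchies. -/
theorem result :
    (∀ k n : ℕ, 1 ≤ k → k ≤ n → ∀ G H : SimpleGraph (Fin n), WLEquiv k G H ∨ SosEquiv k G H →
      ∃ f : Equiv.Perm (Fin n),
        (k + Real.logb 2 n) * errors G H f ≤ 160 * (n : ℝ) ^ 2 * Real.logb 2 (2 * n / k)) ∧
    ∃ C : ℕ, 1 ≤ C ∧ ∀ k n : ℕ, 1 ≤ k → C * k ≤ n → ∃ G H : SimpleGraph (Fin n),
      WLEquiv k G H ∧ SosEquiv k G H ∧ ∀ f : Equiv.Perm (Fin n),
        (n : ℝ) ^ 2 * Real.logb 2 (2 * n / k) ≤ C * (k + Real.logb 2 n) * errors G H f :=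
  ⟨fun _ _ hk hkn G H h => upper_main hk hkn G H h, lower_main⟩

end Pool.Agent.Results.MP_f1a348_lc.HierarchyDistance
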