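import Pool.Agent.H676.GI.Tg.Fin

set_option autoImplicit false

/-! # Isomorphism of 2-groups of class two reduces to telling isomorphic graphs from very
different ones

Let `G` be a finite group in which all squares are central and of order at most two (the groups of
exponent-2 class two; they are believed to be almost all finite groups, and they are considered the
hardest case of group isomorphism). The subgroup `Z` generated by the squares is central and
elementary abelian, `V = G / Z` is elementary abelian, and `x ↦ x²` gives a quadratic map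
`q : V → Z` that determines `G`. The greedy algorithm computes coordinates for `V` and `Z` from the
multiplication table. The graph has four classes of `|G|` vertices for `V`, its dual, `Z` and its
dual, joined according to the values `f (x)`, `l (q (x))` and `l (z)`, and `13 |G|` further vertices
that make the degrees in different classes differ by a constant proportion. A bijection with few
errors preserves the classes up to few exceptions; by linearity testing it agrees with linear maps
up to few exceptions, and these map `q` to `q'` at more than three quarters of the points, and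
so everywhere. -/

namespace Pool.Agent.Results.MP_f1a348_lc.TwoGroupsGap

open Pool.Agent.NPC Pool.Agent.NPC.R542 Pool.Agent.NPC.R542.GI Pool.Agent.H692R2
  Pool.Agent.H676.GI Pool.Agent.H676.GI.Tg

/-- the reduction on strings -/
noncomputable def redRaw (x : List Bool) : List Bool :=
  bits (match unbits (List (List ℕ) × List (List ℕ)) x with
    | none => dflt 0
    | some p => (gT p.1, gT p.2))

theorem polyTime_redRaw : PolyTime redRaw := by
  refine polyTime_bits ?_
  have h1 : Poly (fun p : List Bool × (List (List ℕ) × List (List ℕ)) => p.2.1) :=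
    NPC.Poly.fst (NPC.Poly.snd NPC.Poly.id)
  have h2 : Poly (fun p : List Bool × (List (List ℕ) × List (List ℕ)) => p.2.2) :=
    NPC.Poly.snd (NPC.Poly.snd NPC.Poly.id)
  have e : Poly (fun p : List Bool × (List (List ℕ) × List (List ℕ)) => (gT p.2.1, gT p.2.2)) :=
    NPC.Poly.pair (NPC.Poly.comp (g := gT) poly_gT h1) (NPC.Poly.comp (g := gT) poly_gT h2)
  refine NPC.Poly.congr (NPC.Poly.optCases
    (o := fun x => unbits (List (List ℕ) × List (List ℕ)) x)
    (g := fun _ => dflt 0) (h := fun _ p => (gT p.1, gT p.2)) poly_unbits
    (NPC.Poly.const _) e) fun x => ?_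
  cases unbits (List (List ℕ) × List (List ℕ)) x <;> rfl

theorem redRaw_bits (p : List (List ℕ) × List (List ℕ)) :
    redRaw (bits p) = bits (gT p.1, gT p.2) := by
  unfold redRaw
  rw [unbits_bits]

/-- There is a polynomial-time reduction from the isomorphism of finite groups in which all
squares are central of order at most two, given by multiplication tables, to pairs of graphs which
are isomorphic or for which every bijection has at least `10⁻⁵ N²` errors. So if these two cases
can be told apart in polynomial time, then isomorphism of these groups is decidable in polynomial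
time. -/
theorem result :
    (∃ F : List Bool → List Bool, PolyTime F ∧ ∀ (n : ℕ) (G H : Type) [Group G] [Group H]
      (e : G ≃ Fin n) (e' : H ≃ Fin n), SqC G → SqC H →
      ∃ A B : FinGraph, F (bits (tab e, tab e')) = bits (A, B) ∧ A.n = 17 * n ∧ B.n = 17 * n ∧
        (Nonempty (G ≃* H) → Iso2 A B) ∧
        (¬ Nonempty (G ≃* H) → ∀ f : Fin A.n ≃ Fin B.n,
          A.n ^ 2 < 10 ^ 5 * mism A.graph B.graph f)) ∧
    ((∃ D : List Bool → List Bool, PolyTime D ∧ ∀ A B : FinGraph, A.n = B.n →
      (Iso2 A B → D (bits (A, B)) = [true]) ∧
      ((∀ f : Fin A.n ≃ Fin B.n, A.n ^ 2 < 10 ^ 5 * mism A.graph B.graph f) →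
        D (bits (A, B)) ≠ [true])) →
      ∃ D : List Bool → List Bool, PolyTime D ∧ ∀ (n : ℕ) (G H : Type) [Group G] [Group H]
        (e : G ≃ Fin n) (e' : H ≃ Fin n), SqC G → SqC H →
        (D (bits (tab e, tab e')) = [true] ↔ Nonempty (G ≃* H))) := by
  have key : ∀ (n : ℕ) (G H : Type) [Group G] [Group H]
      (e : G ≃ Fin n) (e' : H ≃ Fin n), SqC G → SqC H →
      ∃ A B : FinGraph, redRaw (bits (tab e, tab e')) = bits (A, B) ∧ A.n = 17 * n ∧
        B.n = 17 * n ∧ (Nonempty (G ≃* H) → Iso2 A B) ∧
        (¬ Nonempty (G ≃* H) → ∀ f : Fin A.n ≃ Fin B.n,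
          A.n ^ 2 < 10 ^ 5 * mism A.graph B.graph f) := by
    intro n G H _ _ e e' hG hH
    obtain ⟨h1, h2⟩ := two_cases e e' hG hH
    refine ⟨gT (tab e), gT (tab e'), redRaw_bits _, ?_, ?_, h1, h2⟩
    · change 17 * (tab e).length = 17 * n
      rw [tab_length]
    · change 17 * (tab e').length = 17 * n
      rw [tab_length]
  refine ⟨⟨redRaw, polyTime_redRaw, key⟩, ?_⟩
  rintro ⟨D, hD, hD'⟩
  refine ⟨fun x => D (redRaw x), H642R2.TMSim.polyTime_comp hD polyTime_redRaw, ?_⟩
  intro n G H _ _ e e' hG hH
  obtain ⟨A, B, h1, h2, h3, h4, h5⟩ := key n G H e e' hG hH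
  obtain ⟨h6, h7⟩ := hD' A B (h2.trans h3.symm)
  simp only
  rw [h1]
  constructor
  · intro h
    by_contra hcon
    exact h7 (h5 hcon) h
  · intro h
    exact h6 (h4 h)

end Pool.Agent.Results.MP_f1a348_lc.TwoGroupsGap
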